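import Pool.Agent.helper25.PP.Spec

/-!
# Project pp: CH1: one switching across `S`
-/

set_option autoImplicit false

namespace PP

open Finset SimpleGraph CT

section

variable {V : Type} [Fintype V] [DecidableEq V]

/-- the candidates for a switching across `S` -/
noncomputable def CH1_X (G : SimpleGraph V) (S : Finset V) : Finset ((V × V) × (V × V)) :=
  inn G S ×ˢ inn G Sᶜ

open Classical in
/-- the switchings across `S` -/
noncomputable def CH1_A (S : Finset V) (G : SimpleGraph V) : Finset (V × V × V × V) :=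
  ((CH1_X G S).filter fun p => ¬ G.Adj p.1.1 p.2.1 ∧ ¬ G.Adj p.1.2 p.2.2).image
    fun p => (p.1.1, p.1.2, p.2.1, p.2.2)

/-- the inverse switchings -/
noncomputable def CH1_B (S : Finset V) (G : SimpleGraph V) : Finset (V × V × V × V) :=
  (out G S).offDiag.image fun p => (p.1.1, p.1.2, p.2.1, p.2.2)

theorem CH1_mem_A (S : Finset V) (G : SimpleGraph V) (a b c d : V) :
    (a, b, c, d) ∈ CH1_A S G ↔ ((a ∈ S ∧ b ∈ S) ∧ G.Adj a b) ∧ ((c ∉ S ∧ d ∉ S) ∧ G.Adj c d) ∧
      ¬ G.Adj a c ∧ ¬ G.Adj b d := by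
  classical
  unfold CH1_A CH1_X
  rw [mem_image]
  constructor
  · rintro ⟨⟨⟨a', b'⟩, ⟨c', d'⟩⟩, h, he⟩
    rw [mem_filter, mem_product, mem_ein, mem_ein, mem_compl, mem_compl] at h
    simp only [Prod.mk.injEq] at he
    obtain ⟨rfl, rfl, rfl, rfl⟩ := he
    exact ⟨h.1.1, h.1.2, h.2⟩
  · intro h
    refine ⟨((a, b), (c, d)), ?_, rfl⟩
    rw [mem_filter, mem_product, mem_ein, mem_ein, mem_compl, mem_compl]
    exact ⟨⟨h.1, h.2.1⟩, h.2.2⟩

theorem CH1_mem_B (S : Finset V) (G : SimpleGraph V) (a c b d : V)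
    (h1 : (a, c) ∈ out G S) (h2 : (b, d) ∈ out G S) (h3 : a ≠ b) :
    (a, c, b, d) ∈ CH1_B S G := by
  unfold CH1_B
  rw [mem_image]
  refine ⟨((a, c), (b, d)), ?_, rfl⟩
  rw [mem_offDiag]
  refine ⟨h1, h2, ?_⟩
  intro h
  exact h3 (Prod.ext_iff.mp h).1

theorem CH1_card_B (S : Finset V) (G : SimpleGraph V) (k : ℕ) (h : dout G S = k + 2) :
    (CH1_B S G).card ≤ (k + 2) * (k + 1) := by
  unfold CH1_B
  refine card_image_le.trans ?_
  rw [offDiag_card]
  have h' : (out G S).card = k + 2 := h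
  rw [h']
  have : (k + 2) * (k + 2) = (k + 2) * (k + 1) + (k + 2) := by ring
  omega

theorem CH1_nb (G : SimpleGraph V) (u w : V) (h4 : ∀ u, (nb G u).card = 4) (h : G.Adj u w) :
    ((nb G u).erase w).card = 3 := by
  rw [card_erase_of_mem ((mem_nb G u w).mpr h), h4]

open Classical in
theorem CH1_bad1 (G : SimpleGraph V) (S : Finset V) (h4 : ∀ u, (nb G u).card = 4) :
    ((CH1_X G S).filter fun p => G.Adj p.1.1 p.2.1).card ≤ dout G S * 9 := by
  have hsub : ((CH1_X G S).filter fun p => G.Adj p.1.1 p.2.1) ⊆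
      (out G S).biUnion fun q => (((nb G q.1).erase q.2) ×ˢ ((nb G q.2).erase q.1)).image
        fun r => ((q.1, r.1), (q.2, r.2)) := by
    rintro ⟨⟨a, b⟩, ⟨c, d⟩⟩ h
    unfold CH1_X at h
    rw [mem_filter, mem_product, mem_ein, mem_ein, mem_compl, mem_compl] at h
    obtain ⟨⟨⟨⟨ha, hb⟩, hab⟩, ⟨hc, hd⟩, hcd⟩, hac⟩ := h
    simp only at ha hb hab hc hd hcd hac
    rw [mem_biUnion]
    refine ⟨(a, c), ?_, ?_⟩
    · rw [mem_dout]
      exact ⟨⟨ha, hc⟩, hac⟩
    · rw [mem_image]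
      refine ⟨(b, d), ?_, rfl⟩
      rw [mem_product, mem_erase, mem_erase, mem_nb, mem_nb]
      refine ⟨⟨?_, hab⟩, ?_, hcd⟩
      · rintro rfl; exact hc hb
      · rintro rfl; exact hd ha
  refine (card_le_card hsub).trans ?_
  refine card_biUnion_le_card_mul _ _ _ ?_
  rintro ⟨a, c⟩ hq
  rw [mem_dout] at hq
  refine card_image_le.trans ?_
  rw [card_product]
  simp only
  rw [CH1_nb G a c h4 hq.2, CH1_nb G c a h4 hq.2.symm]

open Classical in
theorem CH1_bad2 (G : SimpleGraph V) (S : Finset V) (h4 : ∀ u, (nb G u).card = 4) :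
    ((CH1_X G S).filter fun p => G.Adj p.1.2 p.2.2).card ≤ dout G S * 9 := by
  have hsub : ((CH1_X G S).filter fun p => G.Adj p.1.2 p.2.2) ⊆
      (out G S).biUnion fun q => (((nb G q.1).erase q.2) ×ˢ ((nb G q.2).erase q.1)).image
        fun r => ((r.1, q.1), (r.2, q.2)) := by
    rintro ⟨⟨a, b⟩, ⟨c, d⟩⟩ h
    unfold CH1_X at h
    rw [mem_filter, mem_product, mem_ein, mem_ein, mem_compl, mem_compl] at h
    obtain ⟨⟨⟨⟨ha, hb⟩, hab⟩, ⟨hc, hd⟩, hcd⟩, hbd⟩ := h
    simp only at ha hb hab hc hd hcd hbd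
    rw [mem_biUnion]
    refine ⟨(b, d), ?_, ?_⟩
    · rw [mem_dout]
      exact ⟨⟨hb, hd⟩, hbd⟩
    · rw [mem_image]
      refine ⟨(a, c), ?_, rfl⟩
      rw [mem_product, mem_erase, mem_erase, mem_nb, mem_nb]
      refine ⟨⟨?_, hab.symm⟩, ?_, hcd.symm⟩
      · rintro rfl; exact hd ha
      · rintro rfl; exact hc hb
  refine (card_le_card hsub).trans ?_
  refine card_biUnion_le_card_mul _ _ _ ?_
  rintro ⟨b, d⟩ hq
  rw [mem_dout] at hq
  refine card_image_le.trans ?_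
  rw [card_product]
  simp only
  rw [CH1_nb G b d h4 hq.2, CH1_nb G d b h4 hq.2.symm]

theorem CH1_card_A (G : SimpleGraph V) (S : Finset V) (h4 : ∀ u, (nb G u).card = 4) :
    ein G S * ein G Sᶜ - 18 * dout G S ≤ (CH1_A S G).card := by
  classical
  unfold CH1_A
  rw [card_image_of_injective]
  · have hX : (CH1_X G S).card = ein G S * ein G Sᶜ := card_product _ _
    have h1 := CH1_bad1 G S h4
    have h2 := CH1_bad2 G S h4
    have hcov : CH1_X G S ⊆
        ((CH1_X G S).filter fun p => ¬ G.Adj p.1.1 p.2.1 ∧ ¬ G.Adj p.1.2 p.2.2) ∪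
        (((CH1_X G S).filter fun p => G.Adj p.1.1 p.2.1) ∪
          ((CH1_X G S).filter fun p => G.Adj p.1.2 p.2.2)) := by
      intro p hp
      rw [mem_union, mem_union, mem_filter, mem_filter, mem_filter]
      tauto
    have h3 := card_le_card hcov
    have h5 := card_union_le
      ((CH1_X G S).filter fun p => ¬ G.Adj p.1.1 p.2.1 ∧ ¬ G.Adj p.1.2 p.2.2)
        (((CH1_X G S).filter fun p => G.Adj p.1.1 p.2.1) ∪
          ((CH1_X G S).filter fun p => G.Adj p.1.2 p.2.2))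
    have h6 := card_union_le ((CH1_X G S).filter fun p => G.Adj p.1.1 p.2.1)
          ((CH1_X G S).filter fun p => G.Adj p.1.2 p.2.2)
    omega
  · rintro ⟨⟨a, b⟩, ⟨c, d⟩⟩ ⟨⟨a', b'⟩, ⟨c', d'⟩⟩ h
    simp only [Prod.mk.injEq] at h
    obtain ⟨rfl, rfl, rfl, rfl⟩ := h
    rfl

theorem CH1_out (G : SimpleGraph V) (S : Finset V) (a b c d : V) (ha : a ∈ S) (hb : b ∈ S)
    (hc : c ∉ S) (hd : d ∉ S) :
    out (sw G a b c d) S = insert (a, c) (insert (b, d) (out G S)) := by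
  ext ⟨x, y⟩
  rw [mem_insert, mem_insert, mem_dout, mem_dout]
  simp only [sw, Prod.mk.injEq]
  constructor
  · rintro ⟨⟨hx, hy⟩, h⟩
    rcases h with ⟨h1, -, -⟩ | ⟨-, h2 | h2⟩
    · exact Or.inr (Or.inr ⟨⟨hx, hy⟩, h1⟩)
    · rw [Sym2.eq_iff] at h2
      rcases h2 with h2 | ⟨rfl, rfl⟩
      · exact Or.inl h2
      · exact absurd hx hc
    · rw [Sym2.eq_iff] at h2
      rcases h2 with h2 | ⟨rfl, rfl⟩
      · exact Or.inr (Or.inl h2)
      · exact absurd hx hd
  · rintro (⟨rfl, rfl⟩ | ⟨rfl, rfl⟩ | ⟨⟨hx, hy⟩, h⟩)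
    · refine ⟨⟨ha, hc⟩, Or.inr ⟨?_, Or.inl rfl⟩⟩
      rintro rfl; exact hc ha
    · refine ⟨⟨hb, hd⟩, Or.inr ⟨?_, Or.inr rfl⟩⟩
      rintro rfl; exact hd hb
    · refine ⟨⟨hx, hy⟩, Or.inl ⟨h, ?_, ?_⟩⟩
      · intro he
        rw [Sym2.eq_iff] at he
        rcases he with ⟨rfl, rfl⟩ | ⟨rfl, rfl⟩
        · exact hy hb
        · exact hy ha
      · intro he
        rw [Sym2.eq_iff] at he
        rcases he with ⟨rfl, rfl⟩ | ⟨rfl, rfl⟩
        · exact hc hx
        · exact hd hx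

end

theorem CH1 (h1 : DBL_stmt) (h2 : HS_stmt) (h3 : NB4_stmt) : CH1_stmt := by
  classical
  intro V _ _ S k
  set s := S.card with hs
  set t := (Sᶜ).card with ht
  by_cases hcc : cc (fun G : SimpleGraph V => dout G S = k) = 0
  · rw [hcc]
    push_cast
    rw [mul_zero]
    positivity
  have hne : (RP (fun G : SimpleGraph V => dout G S = k)).Nonempty := by
    rw [← card_pos]
    exact Nat.pos_of_ne_zero hcc
  obtain ⟨G₀, hG₀⟩ := hne
  rw [mem_cc] at hG₀
  have hG₀' := h2 V G₀ S hG₀.1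
  rw [hG₀.2] at hG₀'
  have hks : k ≤ 4 * s := by omega
  have hkt : k ≤ 4 * t := by omega
  have key := h1 V (fun G => dout G S = k) (fun G => dout G S = k + 2) (CH1_A S) (CH1_B S)
    ((4 * s - k) * (4 * t - k) - 18 * k) ((k + 2) * (k + 1)) ?_ ?_ ?_
  · have hm : ((4 * s - k : ℤ) * (4 * t - k) - 18 * k) ≤
        (((4 * s - k) * (4 * t - k) - 18 * k : ℕ) : ℤ) := by
      have e1 : ((4 * s - k : ℕ) : ℤ) = 4 * s - k := by
        rw [Nat.cast_sub hks]; push_cast; rfl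
      have e2 : ((4 * t - k : ℕ) : ℤ) = 4 * t - k := by
        rw [Nat.cast_sub hkt]; push_cast; rfl
      rw [← e1, ← e2]
      have e3 : ((4 * s - k : ℕ) : ℤ) * ((4 * t - k : ℕ) : ℤ) =
          (((4 * s - k) * (4 * t - k) : ℕ) : ℤ) := by push_cast; rfl
      rw [e3]
      generalize (4 * s - k) * (4 * t - k) = u
      omega
    calc ((4 * s - k : ℤ) * (4 * t - k) - 18 * k) *
          (cc (fun G : SimpleGraph V => dout G S = k) : ℤ)
        ≤ (((4 * s - k) * (4 * t - k) - 18 * k : ℕ) : ℤ) *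
          (cc (fun G : SimpleGraph V => dout G S = k) : ℤ) :=
          mul_le_mul_of_nonneg_right hm (Int.natCast_nonneg _)
      _ ≤ ((k : ℤ) + 2) * (k + 1) * (cc fun G : SimpleGraph V => dout G S = k + 2 : ℕ) := by
          exact_mod_cast key
  · intro G hG hk
    have h4 := ((h3 V G).1).mp hG
    have hA := CH1_card_A G S h4
    have hh := h2 V G S hG
    rw [hk] at hh hA
    have e1 : ein G S = 4 * s - k := by omega
    have e2 : ein G Sᶜ = 4 * t - k := by omega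
    rw [e1, e2] at hA
    exact hA
  · intro G _ hk
    exact CH1_card_B S G k hk
  · intro G hG hk a b c d hA
    rw [CH1_mem_A] at hA
    obtain ⟨⟨⟨ha, hb⟩, hab⟩, ⟨⟨hc, hd⟩, hcd⟩, hac, hbd⟩ := hA
    have hout := CH1_out G S a b c d ha hb hc hd
    have hne : a ≠ b := hab.ne
    refine ⟨⟨hab, hcd, ?_, ?_, hac, hbd⟩, ?_, ?_⟩
    · rintro rfl; exact hc ha
    · rintro rfl; exact hd hb
    · show dout (sw G a b c d) S = k + 2
      unfold dout
      rw [hout, card_insert_of_notMem, card_insert_of_notMem]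
      · have : (out G S).card = k := hk
        rw [this]
      · rw [mem_dout]
        rintro ⟨-, h⟩
        exact hbd h
      · rw [mem_insert, mem_dout]
        rintro (h | ⟨-, h⟩)
        · exact hne (Prod.ext_iff.mp h).1
        · exact hac h
    · apply CH1_mem_B
      · rw [hout]; exact mem_insert_self _ _
      · rw [hout]; exact mem_insert_of_mem (mem_insert_self _ _)
      · exact hne

end PP
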